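import Pool.Agent.Helper92.FM.Ll3

/-!
# Montgomery's theorem in almost all short windows, without the Riemann hypothesis

No hypothesis is assumed.

For a zero `s = 1/2 + i z` of zeta, on or off the critical line, `z = z s` is its complex ordinate.
The local sum `P` of an even kernel `r` over the pairs of zeros near `t`, with a window of the order
of `M` mean spacings, is formed with the complex ordinates, as on the critical line. If the Fourier
transform of `r` is `ψ(|α|)` on `[-λ, λ]`, `λ < 1/2`, and `0` elsewhere, then for almost all `t` in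
`[T, 2T]` the sum is asymptotically equal to the value
`M ∫ k² (ψ(0) + ∫ |α| ψ(|α|) dα)` predicted by the pair correlation conjecture, as soon as `M → ∞`
and `M = o(log T)`: the mean of the absolute value of the difference is `O(√M + M²/log T)`,
uniformly in `M`, in the window and in `ψ`.

Idea: the explicit formula with all zeros gives the local sum `∑ w(z - t) exp(iu(z - t))` for
`0 ≤ u ≤ λ log T` as a peak at `u = 0`, minus a sum over primes near `exp u`, minus an error that is
small in mean square; the square of the sum over primes, integrated over `u`, is a quadratic form in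
`p^(-it)` of length `< T^(1/2)` whose variance is found with a mean value theorem (a fourth moment).
-/

set_option autoImplicit false

namespace Pool.Agent.Results.MP_8958e8_nt.LocalLaw

open Complex MeasureTheory Set

/-- the nontrivial zeros of `ζ` with ordinate in `(T, 2T]` -/
def Z (T : ℝ) : Set ℂ := {s | 0 < s.re ∧ s.re < 1 ∧ T < s.im ∧ s.im ≤ 2 * T ∧ riemannZeta s = 0}

/-- multiplicity of `s` as a zero of the Riemann zeta function (order of vanishing at `s`) -/
noncomputable def mult (s : ℂ) : ℕ := analyticOrderNatAt riemannZeta s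

/-- the complex ordinate: `s = 1/2 + i z`; it is real, equal to `Im s`, if and only if `s` is on the
critical line -/
noncomputable def z (s : ℂ) : ℂ := (s - 1 / 2) / I

/-- even Lipschitz functions `k` with support in `[-1, 1]`; the windows are their Fourier
transforms -/
structure Window (k : ℝ → ℝ) (A : ℝ) : Prop where
  one_le : 1 ≤ A
  even : ∀ y, k (-y) = k y
  lip : ∀ x y, |k x - k y| ≤ A * |x - y|
  supp : ∀ y, 1 ≤ |y| → k y = 0

/-- the window `exp(-x²/2) ∫ k(y) exp(iy x log T / M) dy`, of the order of `M` mean spacings -/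
noncomputable def w (k : ℝ → ℝ) (T M : ℝ) (x : ℂ) : ℂ :=
  cexp (-x ^ 2 / 2) * ∫ y in (-1 : ℝ)..1, (k y : ℂ) * cexp (I * y * (Real.log T / M * x))

/-- the kernel `r(x) = 2 ∫_0^λ ψ(α) cos(2παx) dα`, with Fourier transform `ψ(|α|)` on `[-λ, λ]` -/
noncomputable def ker (ψ : ℝ → ℝ) (lam : ℝ) (x : ℂ) : ℂ :=
  2 * ∫ α in (0 : ℝ)..lam, (ψ α : ℂ) * Complex.cos (2 * Real.pi * α * x)

/-- the sum of `w(z - t) w(z' - t) r((z - z') log T / 2π)` over the pairs of zeros in `(T, 2T]`,
counted with multiplicity -/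
noncomputable def P (k ψ : ℝ → ℝ) (lam T M t : ℝ) : ℂ :=
  ∑ᶠ s ∈ Z T, ∑ᶠ s' ∈ Z T, (mult s : ℂ) * (mult s' : ℂ) * w k T M (z s - t) * w k T M (z s' - t) *
    ker ψ lam ((z s - z s') * Real.log T / (2 * Real.pi))

/-- the predicted value -/
noncomputable def E (k ψ : ℝ → ℝ) (lam M : ℝ) : ℝ :=
  M * (∫ y in (-1 : ℝ)..1, k y ^ 2) * (ψ 0 + 2 * ∫ α in (0 : ℝ)..lam, α * ψ α)

open Pool.Agent.Helper92.FM in
lemma P_eq (k ψ : ℝ → ℝ) (lam : ℝ) {T : ℝ} (hT : 1 ≤ T) (M t : ℝ) :
    P k ψ lam T M t = PS k ψ lam T M t := by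
  have hz : ∀ s, z s = H370.zz s := by
    intro s
    unfold z H370.zz
    rw [div_eq_mul_inv, Complex.inv_I]
    ring
  have hW : ∀ s, (mult s : ℂ) * w k T M (z s - t) = Wz k (Real.log T / M) t s := by
    intro s
    unfold Wz w Gk
    rw [hz]
    push_cast
    rfl
  unfold P PS
  have hZ : Z T = H370.zset riemannZeta T (2 * T) := rfl
  rw [hZ, H370.finsum_Zf H370.good_zeta hT]
  refine Finset.sum_congr rfl fun s _ => ?_
  rw [H370.finsum_Zf H370.good_zeta hT]
  refine Finset.sum_congr rfl fun s' _ => ?_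
  rw [← hW, ← hW, ← hz, ← hz]
  unfold rk ker
  ring

/-- Let `0 < λ < 1/2`.  There are constants `C`, `M₀`, `T₀` such that for `T ≥ T₀`,
`M₀ ≤ M ≤ log T`, all windows and all kernels `r = ker ψ λ`, where `ψ` is continuously
differentiable with `|ψ|, |ψ'| ≤ B` on `[0, λ]`: (1) the integral over `[T + log T, 2T - log T]` of
the absolute value of the difference of the local pair sum `P` and its predicted value `E` is at
most `C (1 + B)² A⁴ (√M + M²/log T) T`; (2) for every `ε > 0` one has `|P - E| < ε M` for all `t` in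
this interval outside a set of measure at most `C (1 + B)² A⁴ (1/√M + M/log T) T / ε`. -/
theorem result (lam : ℝ) (h0 : 0 < lam) (h1 : lam < 1 / 2) :
    ∃ C M0 T0 : ℝ, ∀ T : ℝ, T0 ≤ T → ∀ M : ℝ, M0 ≤ M → M ≤ Real.log T →
      ∀ (k : ℝ → ℝ) (A : ℝ), Window k A →
      ∀ (ψ ψ' : ℝ → ℝ) (B : ℝ), (∀ α, HasDerivAt ψ (ψ' α) α) → Continuous ψ' →
      (∀ α, 0 ≤ α → α ≤ lam → |ψ α| ≤ B ∧ |ψ' α| ≤ B) →
      (∫ t in (T + Real.log T)..(2 * T - Real.log T), ‖P k ψ lam T M t - E k ψ lam M‖ ≤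
        C * (1 + B) ^ 2 * A ^ 4 * (Real.sqrt M + M ^ 2 / Real.log T) * T) ∧
      (∀ ε : ℝ, 0 < ε →
        volume {t : ℝ | t ∈ Set.Icc (T + Real.log T) (2 * T - Real.log T) ∧
          ε * M ≤ ‖P k ψ lam T M t - E k ψ lam M‖} ≤
            ENNReal.ofReal (C * (1 + B) ^ 2 * A ^ 4 * (1 / Real.sqrt M + M / Real.log T) * T / ε)) := by
  obtain ⟨C, M0, T0, hC, hM0, hT0, h⟩ := Pool.Agent.Helper92.FM.local_law lam h0 h1
  refine ⟨C, M0, T0, fun T hT M hM hML k A hk ψ ψ' B hd hc hb => ?_⟩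
  have hT10 : 10 ≤ T := hT0.trans hT
  have hM1 : 1 ≤ M := hM0.trans hM
  have hMpos : 0 < M := by linarith
  obtain ⟨hcont, hmean⟩ := h T hT M hM hML k A ⟨hk.one_le, hk.even, hk.lip, hk.supp⟩ ψ ψ' B
    ⟨h0, by linarith, hd, hc, hb⟩
  have e : ∀ t, ‖P k ψ lam T M t - E k ψ lam M‖ =
      ‖Pool.Agent.Helper92.FM.PS k ψ lam T M t -
        (M * Pool.Agent.Helper92.FM.nk k * (ψ 0 + 2 * ∫ α in (0 : ℝ)..lam, α * ψ α) : ℝ)‖ := by
    intro t
    rw [P_eq k ψ lam (by linarith) M t]
    rfl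
  simp_rw [e]
  refine ⟨hmean, fun ε hε => ?_⟩
  set f : ℝ → ℝ := fun t => ‖Pool.Agent.Helper92.FM.PS k ψ lam T M t -
        (M * Pool.Agent.Helper92.FM.nk k * (ψ 0 + 2 * ∫ α in (0 : ℝ)..lam, α * ψ α) : ℝ)‖ with hf
  set L := Real.log T with hL
  have hL1 : 1 ≤ L := hM1.trans hML
  have hTL : L ≤ T / 2 := by
    have h2 := Real.add_one_le_exp (L / 2)
    have h3 : Real.exp (L / 2) * Real.exp (L / 2) = T := by
      rw [← Real.exp_add, add_halves, hL, Real.exp_log (by linarith)]
    nlinarith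
  have hle : T + L ≤ 2 * T - L := by linarith
  have hset : {t : ℝ | t ∈ Set.Icc (T + L) (2 * T - L) ∧ ε * M ≤ f t} =
      {t : ℝ | ε * M ≤ f t} ∩ Set.Icc (T + L) (2 * T - L) := by
    ext t
    simp only [Set.mem_inter_iff, Set.mem_ofPred_eq]
    exact and_comm
  have hmk := mul_meas_ge_le_integral_of_nonneg (μ := volume.restrict (Set.Icc (T + L) (2 * T - L)))
    (f := f) (Filter.Eventually.of_forall fun t => norm_nonneg _)
    (hcont.integrableOn_Icc) (ε * M)
  rw [intervalIntegral.integral_of_le hle, ← integral_Icc_eq_integral_Ioc] at hmean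
  have hms : MeasurableSet {t : ℝ | ε * M ≤ f t} :=
    measurableSet_le measurable_const hcont.measurable
  rw [measureReal_def, Measure.restrict_apply hms, ← hset] at hmk
  have hfin : volume {t : ℝ | t ∈ Set.Icc (T + L) (2 * T - L) ∧ ε * M ≤ f t} ≠ ⊤ := by
    rw [hset]
    exact ne_top_of_le_ne_top (by simp) (measure_mono Set.inter_subset_right)
  rw [← ENNReal.ofReal_toReal hfin]
  apply ENNReal.ofReal_le_ofReal
  rw [le_div_iff₀ hε]
  have h5 := hmk.trans hmean
  have hsq : 0 < Real.sqrt M := Real.sqrt_pos.2 hMpos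
  have h6 : C * (1 + B) ^ 2 * A ^ 4 * (Real.sqrt M + M ^ 2 / L) * T =
      M * (C * (1 + B) ^ 2 * A ^ 4 * (1 / Real.sqrt M + M / L) * T) := by
    have h7 : M / Real.sqrt M = Real.sqrt M := by
      rw [div_eq_iff hsq.ne']
      exact (Real.mul_self_sqrt hMpos.le).symm
    calc C * (1 + B) ^ 2 * A ^ 4 * (Real.sqrt M + M ^ 2 / L) * T =
        C * (1 + B) ^ 2 * A ^ 4 * (M / Real.sqrt M + M ^ 2 / L) * T := by rw [h7]
      _ = _ := by ring
  rw [h6] at h5
  have h8 : M * (ε * (volume {t : ℝ | t ∈ Set.Icc (T + L) (2 * T - L) ∧ ε * M ≤ f t}).toReal) ≤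
      M * (C * (1 + B) ^ 2 * A ^ 4 * (1 / Real.sqrt M + M / L) * T) := by
    refine le_trans (le_of_eq ?_) h5
    ring
  have h9 := le_of_mul_le_mul_left h8 hMpos
  linarith

end Pool.Agent.Results.MP_8958e8_nt.LocalLaw
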