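import Pool.Agent.Helper36.P4

/-!
# The pair correlation conjecture is equivalent to its lower half

All statements are unconditional. Pairs of ordinates are counted with multiplicity, as in the
problem, and `F` is any filter finer than `T → ∞` (for instance `T → ∞` itself).

The conjecture can only fail by a window with too few pairs. Lower bounds for arbitrarily short
windows at each single distance, or lower bounds for the number of pairs up to a large distance, or
upper bounds for this number with equal ordinates included, are enough; in each case almost all zeros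
are simple and on the critical line. The excess in any window is at most twice the largest
deficiency, minus half the proportion of the zeros which are multiple or off the line.

Method: the number variance of the zeros in windows of `H` mean spacings is `o(H)` (unconditionally);
if almost all zeros are on the line then Montgomery's theorem holds for the ordinates and test
functions of small band, and a function with a spectral gap cannot have a constant sign.
-/

set_option autoImplicit false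

namespace Pool.Agent.Results.MP_8958e8_nt.LowerHalf

open Filter Topology MeasureTheory

/-- the nontrivial zeros of `ζ` with ordinate in `(0, T]` -/
def zeros (T : ℝ) : Set ℂ :=
  {s : ℂ | 0 < s.re ∧ s.re < 1 ∧ 0 < s.im ∧ s.im ≤ T ∧ riemannZeta s = 0}

/-- the multiplicity of `s` as a zero of `ζ` -/
noncomputable def mult (s : ℂ) : ℕ := analyticOrderNatAt riemannZeta s

/-- the number of ordered pairs of ordinates `γ₁, γ₂` in `(0, T]`, counted with multiplicity, such
that `(γ₁ - γ₂) log T / 2π` is in `S` -/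
noncomputable def pairs (T : ℝ) (S : Set ℝ) : ℕ :=
  ∑ᶠ s ∈ zeros T, ∑ᶠ s' ∈ {s' : ℂ | s' ∈ zeros T ∧
    (s.im - s'.im) * Real.log T / (2 * Real.pi) ∈ S}, mult s * mult s'

/-- `T log T / 2π` -/
noncomputable def X (T : ℝ) : ℝ := T * Real.log T / (2 * Real.pi)

/-- the integral of the pair correlation function -/
noncomputable def P (α β : ℝ) : ℝ :=
  ∫ u in α..β, (1 - (Real.sin (Real.pi * u) / (Real.pi * u)) ^ 2)

/-- the number of zeros with ordinate in `(0, T]` -/
noncomputable def N (T : ℝ) : ℕ := ∑ᶠ s ∈ zeros T, mult s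

/-- the number of zeros with ordinate in `(0, T]` which are not on the critical line -/
noncomputable def off (T : ℝ) : ℕ := ∑ᶠ s ∈ {s : ℂ | s ∈ zeros T ∧ s.re ≠ 1 / 2}, mult s

/-- the number of zeros with ordinate in `(0, T]` which are not both simple and on the critical
line -/
noncomputable def bad (T : ℝ) : ℕ :=
  ∑ᶠ s ∈ {s : ℂ | s ∈ zeros T ∧ ¬ (s.re = 1 / 2 ∧ mult s = 1)}, mult s

/-- the pair correlation conjecture (Q1) along `F` -/
def Montgomery (F : Filter ℝ) : Prop := ∀ α β : ℝ, 0 < α → α < β →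
  Asymptotics.IsEquivalent F (fun T => (pairs T (Set.Icc α β) : ℝ)) (fun T => P α β * X T)

/-- its lower half -/
def Lower (F : Filter ℝ) : Prop := ∀ α β : ℝ, 0 < α → α < β → ∀ ε : ℝ, 0 < ε →
  ∀ᶠ T in F, (P α β - ε) * X T ≤ pairs T (Set.Icc α β)

/-- a lower bound for the local density of the distances at each `α > 0`: for arbitrarily short
windows `[α, α + h]` -/
def LocalLower (F : Filter ℝ) : Prop := ∀ α : ℝ, 0 < α → ∀ ε : ℝ, 0 < ε → ∀ h₀ : ℝ, 0 < h₀ →
  ∃ h : ℝ, 0 < h ∧ h < h₀ ∧ ∀ᶠ T in F,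
    (1 - (Real.sin (Real.pi * α) / (Real.pi * α)) ^ 2 - ε) * h * X T ≤
      pairs T (Set.Icc α (α + h))

/-- the lower half for the pairs of distinct ordinates at distance up to a large `β`, up to an
exponentially small quantity -/
def FarLower (F : Filter ℝ) : Prop := ∃ C c R : ℝ, 0 < c ∧ ∀ β : ℝ, R ≤ β → ∀ ε : ℝ, 0 < ε →
  ∀ᶠ T in F, (P 0 β - C * Real.exp (-(c * β)) - ε) * X T ≤ pairs T (Set.Ioc 0 β)

/-- the upper half for the pairs at distance up to a large `β`, equal ordinates included, up to an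
exponentially small quantity -/
def FarUpper (F : Filter ℝ) : Prop := ∃ C c R : ℝ, 0 < c ∧ ∀ β : ℝ, R ≤ β → ∀ ε : ℝ, 0 < ε →
  ∀ᶠ T in F, (pairs T (Set.Icc 0 β) : ℝ) ≤ (1 + P 0 β + C * Real.exp (-(c * β)) + ε) * X T

/-- a one-sided bound (upper if `s = 1`, lower if `s = -1`) for the far windows of length `ℓ`, up to
an exponentially small quantity -/
def FarWindows (F : Filter ℝ) (ℓ s : ℝ) : Prop := ∃ C c A : ℝ, 0 < c ∧ ∀ a : ℝ, A ≤ a →
  ∀ ε : ℝ, 0 < ε → ∀ᶠ T in F,
    s * (pairs T (Set.Icc a (a + ℓ)) - P a (a + ℓ) * X T) ≤ (C * Real.exp (-(c * a)) + ε) * X T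

open Pool.Agent.Helper36 Pool.Agent.Y744

lemma pairs_eq (T : ℝ) (S : Set ℝ) : (pairs T S : ℝ) = PC T S := pairs_PC T S

lemma X_eq (T : ℝ) : X T = Xf T := rfl

lemma P_eq (α β : ℝ) : P α β = gp β - gp α := P_gp α β

lemma P_zero (β : ℝ) : P 0 β = gp β := by rw [P_eq, gp_zero, sub_zero]

lemma bad_eq (T : ℝ) : (bad T : ℝ) = Nbad T := cnt_bad T

lemma off_eq (T : ℝ) : (off T : ℝ) = Noff T := cnt_off T

lemma N_lim : Tendsto (fun T => (N T : ℝ) / Xf T) atTop (𝓝 1) := by
  refine NN_Xf.congr fun T => ?_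
  rw [← cnt_all]
  rfl

lemma Mont_iff {F : Filter ℝ} (hF : F ≤ atTop) :
    Montgomery F ↔ ∀ x, Tendsto (fun T => Aa T x) F (𝓝 (AG x)) := by
  rw [← Mont_K hF]
  refine forall_congr' fun α => forall_congr' fun β => forall_congr' fun hα =>
    forall_congr' fun hαβ => ?_
  have h := equiv_iff hF (f := fun T => PC T (Set.Icc α β)) (gp_lt hαβ)
  simp_rw [pairs_eq, P_eq, X_eq]
  exact h

lemma small_iff {F : Filter ℝ} (hF : F ≤ atTop) {f : ℝ → ℝ} (hf : ∀ T, 0 ≤ f T) :
    Tendsto (fun T => f T / N T) F (𝓝 0) ↔ ∀ ε : ℝ, 0 < ε → ∀ᶠ T in F, f T ≤ ε * Xf T := by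
  have hN : ∀ᶠ T in F, Xf T / 2 ≤ N T ∧ (N T : ℝ) ≤ 2 * Xf T := by
    have h1 := (tendsto_order.1 N_lim).1 (1 / 2) (by norm_num)
    have h2 := (tendsto_order.1 N_lim).2 2 (by norm_num)
    filter_upwards [hF h1, hF h2, hF (eventually_gt_atTop (1 : ℝ))] with T a1 a2 a3
    have hX := Xf_pos a3
    rw [lt_div_iff₀ hX] at a1
    rw [div_lt_iff₀ hX] at a2
    constructor <;> linarith
  constructor
  · intro h ε hε
    filter_upwards [(tendsto_order.1 h).2 (ε / 2) (by positivity), hN,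
      hF (eventually_gt_atTop (1 : ℝ))] with T a1 a2 a3
    have hX := Xf_pos a3
    rw [div_lt_iff₀ (by linarith)] at a1
    nlinarith
  · intro h
    rw [Metric.tendsto_nhds]
    intro ε hε
    filter_upwards [h (ε / 4) (by positivity), hN, hF (eventually_gt_atTop (1 : ℝ))] with T a1 a2 a3
    have hX := Xf_pos a3
    have hNp : (0 : ℝ) < N T := by linarith
    rw [Real.dist_eq, sub_zero, abs_of_nonneg (div_nonneg (hf T) hNp.le), div_lt_iff₀ hNp]
    nlinarith

lemma lower_K {F : Filter ℝ} (hF : F ≤ atTop) (h : Lower F) :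
    ∀ x, Tendsto (fun T => Aa T x) F (𝓝 (AG x)) := by
  refine K_lower hF fun α β hα hαβ ε hε => ?_
  filter_upwards [h α β hα hαβ ε hε, hF (eventually_gt_atTop (1 : ℝ))] with T h1 h2
  rw [pairs_eq, X_eq, P_eq] at h1
  unfold Y744.Nr
  rw [le_div_iff₀ (Xf_pos h2)]
  exact h1

lemma gd_eq {α : ℝ} (hα : 0 < α) :
    gd α = 1 - (Real.sin (Real.pi * α) / (Real.pi * α)) ^ 2 := by
  unfold gd
  have hpi := Real.pi_pos
  rw [Real.sinc_of_ne_zero (by positivity)]

lemma local_K {F : Filter ℝ} (hF : F ≤ atTop) (h : LocalLower F) :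
    ∀ x, Tendsto (fun T => Aa T x) F (𝓝 (AG x)) := by
  refine K_local hF fun α hα ε hε h₀ hh₀ => ?_
  obtain ⟨k, hk0, hk1, hk2⟩ := h α hα ε hε h₀ hh₀
  refine ⟨k, hk0, hk1, ?_⟩
  filter_upwards [hk2, hF (eventually_gt_atTop (1 : ℝ))] with T h1 h2
  rw [pairs_eq, X_eq, ← gd_eq hα] at h1
  unfold Y744.Nr
  rw [le_div_iff₀ (Xf_pos h2)]
  exact h1

lemma farLower_K {F : Filter ℝ} (hF : F ≤ atTop) (h : FarLower F) :
    ∀ x, Tendsto (fun T => Aa T x) F (𝓝 (AG x)) := by
  obtain ⟨C, c, R, hc, h⟩ := h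
  refine K_pos hF (C := max C 0) (c := c) (R := max R 1) (le_max_right _ _) hc
    (lt_of_lt_of_le one_pos (le_max_right _ _)) fun β hβ ε hε => ?_
  filter_upwards [h β ((le_max_left _ _).trans hβ) ε hε, hF (eventually_gt_atTop (1 : ℝ))]
    with T h1 h2
  rw [pairs_eq, X_eq, P_zero] at h1
  have hX := Xf_pos h2
  unfold Np
  rw [le_div_iff₀ hX]
  refine le_trans (mul_le_mul_of_nonneg_right ?_ hX.le) h1
  have : C * Real.exp (-(c * β)) ≤ max C 0 * Real.exp (-(c * β)) :=
    mul_le_mul_of_nonneg_right (le_max_left _ _) (Real.exp_pos _).le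
  linarith

lemma farUpper_K {F : Filter ℝ} (hF : F ≤ atTop) (h : FarUpper F) :
    ∀ x, Tendsto (fun T => Aa T x) F (𝓝 (AG x)) := by
  obtain ⟨C, c, R, hc, h⟩ := h
  refine K_diag hF (C := max C 0) (c := c) (R := max R 1) (le_max_right _ _) hc
    (lt_of_lt_of_le one_pos (le_max_right _ _)) fun β hβ ε hε => ?_
  filter_upwards [h β ((le_max_left _ _).trans hβ) ε hε, hF (eventually_gt_atTop (1 : ℝ))]
    with T h1 h2
  rw [pairs_eq, X_eq, P_zero] at h1
  have hX := Xf_pos h2
  unfold Y744.Nr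
  rw [div_le_iff₀ hX]
  refine h1.trans (mul_le_mul_of_nonneg_right ?_ hX.le)
  have : C * Real.exp (-(c * β)) ≤ max C 0 * Real.exp (-(c * β)) :=
    mul_le_mul_of_nonneg_right (le_max_left _ _) (Real.exp_pos _).le
  linarith

lemma far_OneS {F : Filter ℝ} (hF : F ≤ atTop) {ℓ s : ℝ} (h : FarWindows F ℓ s) : OneS F ℓ s := by
  obtain ⟨C, c, A, hc, h⟩ := h
  refine ⟨max C 1, c, max A 1, lt_of_lt_of_le one_pos (le_max_right _ _), hc,
    lt_of_lt_of_le one_pos (le_max_right _ _), fun a ha ε hε => ?_⟩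
  filter_upwards [h a ((le_max_left _ _).trans ha) ε hε, hF (eventually_gt_atTop (1 : ℝ))]
    with T h1 h2
  rw [pairs_eq, X_eq, P_eq] at h1
  have hX := Xf_pos h2
  have e : s * (PC T (Set.Icc a (a + ℓ)) - (gp (a + ℓ) - gp a) * Xf T) =
      s * (Y744.Nr T a (a + ℓ) - (gp (a + ℓ) - gp a)) * Xf T := by
    unfold Y744.Nr
    field_simp
  rw [e] at h1
  have h3 := le_of_mul_le_mul_right h1 hX
  have : C * Real.exp (-(c * a)) ≤ max C 1 * Real.exp (-(c * a)) :=
    mul_le_mul_of_nonneg_right (le_max_left _ _) (Real.exp_pos _).le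
  linarith

lemma K_win {F : Filter ℝ} (hF : F ≤ atTop)
    (hK : ∀ x, Tendsto (fun T => Aa T x) F (𝓝 (AG x))) {α β : ℝ} (hα : 0 < α) (hαβ : α < β)
    {ε : ℝ} (hε : 0 < ε) : ∀ᶠ T in F,
      |(pairs T (Set.Icc α β) : ℝ) - P α β * X T| ≤ ε * X T := by
  have h1 := (Mont_K hF).2 hK α β hα hαβ
  filter_upwards [(Metric.tendsto_nhds.1 h1) ε hε, hF (eventually_gt_atTop (1 : ℝ))] with T h2 h3
  rw [pairs_eq, X_eq, P_eq]
  have hX := Xf_pos h3
  rw [Real.dist_eq] at h2
  have e : PC T (Set.Icc α β) - (gp β - gp α) * Xf T =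
      (Y744.Nr T α β - (gp β - gp α)) * Xf T := by
    unfold Y744.Nr
    field_simp
  rw [e, abs_mul, abs_of_pos hX]
  exact mul_le_mul_of_nonneg_right h2.le hX.le

/-- **The pair correlation conjecture and its lower half**, unconditionally, along any filter
`F` finer than `T → ∞`. -/
theorem result :
    (∀ F : Filter ℝ, F ≤ atTop →
      (Montgomery F ↔ Lower F) ∧ (Montgomery F ↔ LocalLower F) ∧
      (Montgomery F ↔ FarLower F) ∧ (Montgomery F ↔ FarUpper F) ∧
      (∀ ℓ₁ ℓ₂ s₁ s₂ : ℝ, 0 < ℓ₁ → 0 < ℓ₂ → Irrational (ℓ₁ / ℓ₂) → (s₁ = 1 ∨ s₁ = -1) →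
        (s₂ = 1 ∨ s₂ = -1) → (Montgomery F ↔
          Tendsto (fun T => (off T : ℝ) / N T) F (𝓝 0) ∧ FarWindows F ℓ₁ s₁ ∧
            FarWindows F ℓ₂ s₂)) ∧
      (Montgomery F → Tendsto (fun T => (bad T : ℝ) / N T) F (𝓝 0)) ∧
      (∀ δ : ℝ, (∀ α β : ℝ, 0 < α → α < β → ∀ ε : ℝ, 0 < ε → ∀ᶠ T in F,
          (P α β - δ - ε) * X T ≤ pairs T (Set.Icc α β)) →
        ∀ α β : ℝ, 0 < α → α < β → ∀ ε : ℝ, 0 < ε → ∀ᶠ T in F,
          (pairs T (Set.Icc α β) : ℝ) + bad T / 2 ≤ (P α β + 2 * δ + ε) * X T) ∧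
      (∀ δ R : ℝ, (∀ β : ℝ, R ≤ β → ∀ ε : ℝ, 0 < ε → ∀ᶠ T in F,
          (P 0 β - δ - ε) * X T ≤ pairs T (Set.Ioc 0 β)) →
        ∀ ε : ℝ, 0 < ε → ∀ᶠ T in F, (bad T : ℝ) ≤ (2 * δ + ε) * N T)) ∧
    (∀ ε : ℝ, 0 < ε → ∃ Λ : ℝ, 0 < Λ ∧ ∀ lam : ℝ, Λ ≤ lam → ∀ᶠ T : ℝ in atTop,
      |(∫ β in (0 : ℝ)..lam, ((pairs T (Set.Ioc 0 β) : ℝ) / X T - P 0 β)) / lam +
        ((pairs T {0} : ℝ) / X T - 1) / 2| ≤ ε) := by
  refine ⟨fun F hF => ⟨⟨fun h => ?_, fun h => ?_⟩, ⟨fun h => ?_, fun h => ?_⟩,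
    ⟨fun h => ?_, fun h => ?_⟩, ⟨fun h => ?_, fun h => ?_⟩,
    fun ℓ₁ ℓ₂ s₁ s₂ h1 h2 hirr hs1 hs2 => ⟨fun h => ?_, fun h => ?_⟩,
    fun h => ?_, fun δ hyp α β hα hαβ ε hε => ?_, fun δ R hyp ε hε => ?_⟩, fun ε hε => ?_⟩
  · -- the lower half
    intro α β hα hαβ ε hε
    filter_upwards [K_win hF ((Mont_iff hF).1 h) hα hαβ hε] with T hT
    have := (abs_le.1 hT).1
    linarith
  · exact (Mont_iff hF).2 (lower_K hF h)
  · -- local densities
    intro α hα ε hε h₀ hh₀
    have hd := (gp_deriv α).isLittleO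
    have hd2 := hd.bound (show 0 < ε / 2 by positivity)
    obtain ⟨r, hr, hr2⟩ := Metric.eventually_nhds_iff.1 hd2
    obtain ⟨k, hk⟩ : ∃ k, k = min h₀ r / 2 := ⟨_, rfl⟩
    have hk0 : 0 < k := by rw [hk]; positivity
    have hk1 : k < h₀ := by
      have := min_le_left h₀ r
      rw [hk]; linarith
    have hk2 : k < r := by
      have := min_le_right h₀ r
      rw [hk]; linarith
    refine ⟨k, hk0, hk1, ?_⟩
    have e2 := hr2 (show dist (α + k) α < r by
      rw [Real.dist_eq, add_sub_cancel_left, abs_of_pos hk0]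
      exact hk2)
    rw [add_sub_cancel_left, smul_eq_mul, Real.norm_eq_abs, Real.norm_eq_abs, abs_of_pos hk0] at e2
    have e3 := (abs_le.1 e2).1
    filter_upwards [K_win hF ((Mont_iff hF).1 h) hα (show α < α + k by linarith)
      (show 0 < ε / 2 * k by positivity), hF (eventually_gt_atTop (1 : ℝ))] with T hT hT1
    have h1 := (abs_le.1 hT).1
    have hX := Xf_pos hT1
    rw [← gd_eq hα]
    rw [P_eq, X_eq] at h1
    rw [X_eq]
    have h2 : (gd α - ε) * k * Xf T ≤ (gp (α + k) - gp α - ε / 2 * k) * Xf T :=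
      mul_le_mul_of_nonneg_right (by linarith) hX.le
    linarith
  · exact (Mont_iff hF).2 (local_K hF h)
  · have hK := (Mont_iff hF).1 h
    refine ⟨0, 1, 1, one_pos, fun β hβ ε hε => ?_⟩
    have h1 := Np_K hK (show 0 ≤ β by linarith)
    filter_upwards [(tendsto_order.1 h1).1 (gp β - ε) (by linarith),
      hF (eventually_gt_atTop (1 : ℝ))] with T h2 h3
    rw [pairs_eq, X_eq, P_zero, zero_mul, sub_zero]
    unfold Np at h2
    rw [lt_div_iff₀ (Xf_pos h3)] at h2
    exact h2.le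
  · exact (Mont_iff hF).2 (farLower_K hF h)
  · have hK := (Mont_iff hF).1 h
    refine ⟨0, 1, 1, one_pos, fun β hβ ε hε => ?_⟩
    have h1 := Nr_zero_left hK (show 0 ≤ β by linarith)
    filter_upwards [(tendsto_order.1 h1).2 (1 + gp β + ε) (by linarith),
      hF (eventually_gt_atTop (1 : ℝ))] with T h2 h3
    rw [pairs_eq, X_eq, P_zero, zero_mul, add_zero]
    unfold Y744.Nr at h2
    rw [div_lt_iff₀ (Xf_pos h3)] at h2
    exact h2.le
  · exact (Mont_iff hF).2 (farUpper_K hF h)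
  · have hK := (Mont_iff hF).1 h
    have key : ∀ ℓ s : ℝ, 0 < ℓ → (s = 1 ∨ s = -1) → FarWindows F ℓ s := by
      intro ℓ s hℓ hs
      refine ⟨0, 1, 1, one_pos, fun a ha ε hε => ?_⟩
      filter_upwards [K_win hF hK (show 0 < a by linarith) (show a < a + ℓ by linarith) hε]
        with T hT
      rw [zero_mul, zero_add]
      refine le_trans (le_abs_self _) ?_
      rw [abs_mul]
      have : |s| = 1 := by rcases hs with h | h <;> rw [h] <;> simp
      rw [this, one_mul]
      exact hT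
    refine ⟨?_, key ℓ₁ s₁ h1 hs1, key ℓ₂ s₂ h2 hs2⟩
    rw [small_iff hF (fun T => Nat.cast_nonneg _)]
    intro ε hε
    filter_upwards [bad_of_K hF hK hε] with T hT
    rw [off_eq]
    exact (Noff_le T).trans hT
  · obtain ⟨h3, h4, h5⟩ := h
    rw [small_iff hF (fun T => Nat.cast_nonneg _)] at h3
    refine (Mont_iff hF).2 (K_two hF (fun ε hε => ?_) h1 h2 hirr hs1 hs2 (far_OneS hF h4)
      (far_OneS hF h5))
    filter_upwards [h3 ε hε, hF (eventually_gt_atTop (1 : ℝ))] with T a1 a2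
    rw [off_eq] at a1
    exact a1.trans (mul_le_mul_of_nonneg_left (Xf_le a2) hε.le)
  · have hK := (Mont_iff hF).1 h
    rw [small_iff hF (fun T => Nat.cast_nonneg _)]
    intro ε hε
    filter_upwards [bad_of_K hF hK hε] with T hT
    rw [bad_eq]
    exact hT
  · -- stability
    have hs := stab hF (δ := δ) (fun α β hα hαβ ε hε => by
      filter_upwards [hyp α β hα hαβ ε hε, hF (eventually_gt_atTop (1 : ℝ))] with T a1 a2
      rw [pairs_eq, X_eq, P_eq] at a1
      unfold Y744.Nr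
      rw [le_div_iff₀ (Xf_pos a2)]
      exact a1) hα hαβ hε
    filter_upwards [hs, hF (eventually_gt_atTop (1 : ℝ))] with T a1 a2
    rw [pairs_eq, X_eq, P_eq, bad_eq]
    have hX := Xf_pos a2
    have e : Y744.Nr T α β * Xf T = PC T (Set.Icc α β) := by
      unfold Y744.Nr
      rw [div_mul_cancel₀ _ hX.ne']
    rw [e] at a1
    exact a1
  · -- the quantitative form
    by_cases hneg : 2 * δ + ε / 2 ≤ 0
    · have hq := quant hF (δ := δ) (R := max R 1) (lt_of_lt_of_le one_pos (le_max_right _ _))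
        (fun β hβ ε hε => by
          filter_upwards [hyp β ((le_max_left _ _).trans hβ) ε hε,
            hF (eventually_gt_atTop (1 : ℝ))] with T a1 a2
          rw [pairs_eq, X_eq, P_zero] at a1
          unfold Np
          rw [le_div_iff₀ (Xf_pos a2)]
          exact a1) (show 0 < ε / 4 by positivity)
      filter_upwards [hq, hF (eventually_gt_atTop (1 : ℝ))] with T a1 a2
      exfalso
      have h0 : 0 ≤ Nbad T := Finset.sum_nonneg fun s _ => badm_nonneg s
      have hX := Xf_pos a2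
      nlinarith
    · push Not at hneg
      set η := min (ε / 4) (ε / (8 * (2 * δ + ε / 2) + 8)) with hη
      have hη0 : 0 < η := lt_min (by positivity) (by positivity)
      have hη1 : η ≤ ε / 4 := min_le_left _ _
      have hq := quant hF (δ := δ) (R := max R 1) (lt_of_lt_of_le one_pos (le_max_right _ _))
        (fun β hβ ε hε => by
          filter_upwards [hyp β ((le_max_left _ _).trans hβ) ε hε,
            hF (eventually_gt_atTop (1 : ℝ))] with T a1 a2
          rw [pairs_eq, X_eq, P_zero] at a1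
          unfold Np
          rw [le_div_iff₀ (Xf_pos a2)]
          exact a1) (show 0 < ε / 2 by positivity)
      have hρ : (2 * δ + ε / 2) / (2 * δ + ε) < 1 := by
        rw [div_lt_one (by linarith)]
        linarith
      filter_upwards [hq, hF ((tendsto_order.1 N_lim).1 _ hρ),
        hF (eventually_gt_atTop (1 : ℝ))] with T a1 a2 a3
      have hX := Xf_pos a3
      rw [bad_eq]
      rw [div_lt_div_iff₀ (by linarith) hX] at a2
      refine a1.trans ?_
      linarith
  · obtain ⟨l1, hl1, h⟩ := average ε hε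
    refine ⟨l1, by linarith, fun lam hlam => ?_⟩
    filter_upwards [h lam hlam] with T hT
    have e1 : (pairs T {0} : ℝ) / X T = Aa T 0 := by
      rw [pairs_eq, X_eq]
      unfold Aa
      rw [div_eq_inv_mul]
      congr 2
      ext x
      simp
    have e2 : ∫ β in (0 : ℝ)..lam, ((pairs T (Set.Ioc 0 β) : ℝ) / X T - P 0 β) =
        ∫ β in (0 : ℝ)..lam, (Np T β - gp β) := by
      refine intervalIntegral.integral_congr fun β _ => ?_
      show (pairs T (Set.Ioc 0 β) : ℝ) / X T - P 0 β = Np T β - gp β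
      rw [pairs_eq, X_eq, P_zero]
      rfl
    rw [e1, e2]
    exact hT

end Pool.Agent.Results.MP_8958e8_nt.LowerHalf
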