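import Pool.Agent.Helper36.R3

/-!
# Pair correlation of the simple critical zeros only

All statements are unconditional.

The pairs of zeros of `ζ` within `β` mean spacings which contain a zero that is multiple or off the
critical line are few if such zeros are few, with a saving of a power. It follows that the pair
correlation conjecture for all zeros is equivalent to the conjecture, and already to its lower half,
for any part of the zeros which contains the simple critical zeros.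
-/

set_option autoImplicit false

namespace Pool.Agent.Results.MP_8958e8_nt.SimpleZerosOnly

open Filter Topology MeasureTheory

/-- the nontrivial zeros of `ζ` with ordinate in `(0, T]` -/
def zeros (T : ℝ) : Set ℂ :=
  {s : ℂ | 0 < s.re ∧ s.re < 1 ∧ 0 < s.im ∧ s.im ≤ T ∧ riemannZeta s = 0}

/-- the multiplicity of `s` as a zero of `ζ` -/
noncomputable def mult (s : ℂ) : ℕ := analyticOrderNatAt riemannZeta s

/-- simple zeros on the critical line -/
def Good (s : ℂ) : Prop := s.re = 1 / 2 ∧ mult s = 1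

/-- a choice `w` of a part of the zeros which contains all simple critical zeros: a zero `s` is
counted `w s` times -/
def Weight (w : ℂ → ℝ) : Prop := ∀ s, 0 ≤ w s ∧ w s ≤ mult s ∧ (Good s → w s = 1)

/-- the number of ordered pairs of ordinates `γ₁, γ₂` in `(0, T]`, counted with the weights `w`, such
that `(γ₁ - γ₂) log T / 2π` is in `S` -/
noncomputable def pairs (w : ℂ → ℝ) (T : ℝ) (S : Set ℝ) : ℝ :=
  ∑ᶠ s ∈ zeros T, ∑ᶠ s' ∈ {s' : ℂ | s' ∈ zeros T ∧
    (s.im - s'.im) * Real.log T / (2 * Real.pi) ∈ S}, w s * w s'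

/-- `T log T / 2π` -/
noncomputable def X (T : ℝ) : ℝ := T * Real.log T / (2 * Real.pi)

/-- the integral of the pair correlation function -/
noncomputable def P (α β : ℝ) : ℝ :=
  ∫ u in α..β, (1 - (Real.sin (Real.pi * u) / (Real.pi * u)) ^ 2)

/-- the number of zeros with ordinate in `(0, T]` which are not both simple and on the critical
line, counted with multiplicity -/
noncomputable def bad (T : ℝ) : ℕ := ∑ᶠ s ∈ {s : ℂ | s ∈ zeros T ∧ ¬ Good s}, mult s

/-- the number of ordered pairs of zeros with ordinates in `(0, T]` and at normalised distance at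
most `β`, at least one of which is multiple or off the critical line, counted with multiplicity -/
noncomputable def badPairs (T β : ℝ) : ℕ :=
  ∑ᶠ s ∈ zeros T, ∑ᶠ s' ∈ {s' : ℂ | s' ∈ zeros T ∧
    |(s.im - s'.im) * Real.log T / (2 * Real.pi)| ≤ β ∧ (¬ Good s ∨ ¬ Good s')}, mult s * mult s'

/-- the pair correlation conjecture for the weights `w` along `F`; for `w s = mult s` this is Q1 -/
def Montgomery (w : ℂ → ℝ) (F : Filter ℝ) : Prop := ∀ α β : ℝ, 0 < α → α < β →
  Asymptotics.IsEquivalent F (fun T => pairs w T (Set.Icc α β)) (fun T => P α β * X T)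

/-- its lower half -/
def Lower (w : ℂ → ℝ) (F : Filter ℝ) : Prop := ∀ α β : ℝ, 0 < α → α < β → ∀ ε : ℝ, 0 < ε →
  ∀ᶠ T in F, (P α β - ε) * X T ≤ pairs w T (Set.Icc α β)

/-- a lower bound for the local density of the distances at each `α > 0`: for arbitrarily short
windows `[α, α + h]` -/
def LocalLower (w : ℂ → ℝ) (F : Filter ℝ) : Prop :=
  ∀ α : ℝ, 0 < α → ∀ ε : ℝ, 0 < ε → ∀ h₀ : ℝ, 0 < h₀ →
    ∃ h : ℝ, 0 < h ∧ h < h₀ ∧ ∀ᶠ T in F,
      (1 - (Real.sin (Real.pi * α) / (Real.pi * α)) ^ 2 - ε) * h * X T ≤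
        pairs w T (Set.Icc α (α + h))

/-- the lower half for the pairs of distinct ordinates at distance up to a large `β`, up to an
exponentially small quantity -/
def FarLower (w : ℂ → ℝ) (F : Filter ℝ) : Prop := ∃ C c R : ℝ, 0 < c ∧ ∀ β : ℝ, R ≤ β →
  ∀ ε : ℝ, 0 < ε →
    ∀ᶠ T in F, (P 0 β - C * Real.exp (-(c * β)) - ε) * X T ≤ pairs w T (Set.Ioc 0 β)

/-- only the simple zeros on the critical line -/
noncomputable def simpleCritical (s : ℂ) : ℝ := ({s : ℂ | Good s}.indicator fun _ => 1) s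

/-- all zeros on the critical line, with multiplicity -/
noncomputable def critical (s : ℂ) : ℝ := ({s : ℂ | s.re = 1 / 2}.indicator fun s => (mult s : ℝ)) s

/-- the distinct zeros, each counted once -/
noncomputable def distinct (s : ℂ) : ℝ := min 1 (mult s : ℝ)

open Pool.Agent.Helper36 Pool.Agent.Y744

lemma mz_mult (s : ℂ) : mz s = (mult s : ℝ) := rfl

lemma good_iff (s : ℂ) : Good s ↔ (s.re = 1 / 2 ∧ mz s = 1) := by
  unfold Good
  rw [mz_mult]
  exact and_congr_right fun _ => ⟨fun h => by rw [h]; simp, fun h => by exact_mod_cast h⟩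

lemma wt_of {w : ℂ → ℝ} (h : Weight w) : Wt w :=
  ⟨fun s => (h s).1, fun s => (h s).2.1, fun s h1 h2 => (h s).2.2 ((good_iff s).2 ⟨h1, h2⟩)⟩

lemma pairs_eq (w : ℂ → ℝ) (T : ℝ) (S : Set ℝ) : pairs w T S = PW w T S := by
  classical
  unfold PW pairs
  change ∑ᶠ s ∈ zs T, _ = _
  rw [finsum_mem_eq_finite_toFinset_sum _ (zs_fin T), zs_eq]
  refine Finset.sum_congr rfl fun s _ => ?_
  have hfin : {s' : ℂ | s' ∈ zs T ∧ (s.im - s'.im) * Real.log T / (2 * Real.pi) ∈ S}.Finite :=
    (zs_fin T).subset fun _ h => h.1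
  have e0 : ({s' : ℂ | s' ∈ zeros T ∧ (s.im - s'.im) * Real.log T / (2 * Real.pi) ∈ S}) =
    {s' : ℂ | s' ∈ zs T ∧ (s.im - s'.im) * Real.log T / (2 * Real.pi) ∈ S} := rfl
  rw [e0, finsum_mem_eq_finite_toFinset_sum _ hfin]
  have e : ∀ s' : ℂ, w s * w s' * S.indicator (fun _ => (1 : ℝ)) (dd T s s') =
      if (dd T s s') ∈ S then w s * w s' else 0 := by
    intro s'
    by_cases h : dd T s s' ∈ S
    · rw [if_pos h, Set.indicator_of_mem h, mul_one]
    · rw [if_neg h, Set.indicator_of_notMem h, mul_zero]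
  simp_rw [e]
  rw [← Finset.sum_filter]
  refine Finset.sum_congr ?_ fun s' _ => rfl
  ext s'
  rw [Set.Finite.mem_toFinset, Finset.mem_filter, ← zs_eq, Set.Finite.mem_toFinset]
  rfl

lemma pairs_mult (T : ℝ) (S : Set ℝ) : pairs (fun s => (mult s : ℝ)) T S = PC T S :=
  pairs_eq _ T S

lemma badPairs_eq (T β : ℝ) : (badPairs T β : ℝ) = BP T β := by
  classical
  unfold BP badPairs
  have hz : (∑ᶠ s ∈ zeros T, ∑ᶠ s' ∈ {s' : ℂ | s' ∈ zeros T ∧
      |(s.im - s'.im) * Real.log T / (2 * Real.pi)| ≤ β ∧ (¬ Good s ∨ ¬ Good s')},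
      mult s * mult s') = ∑ s ∈ Zt T, ∑ᶠ s' ∈ {s' : ℂ | s' ∈ zeros T ∧
      |(s.im - s'.im) * Real.log T / (2 * Real.pi)| ≤ β ∧ (¬ Good s ∨ ¬ Good s')},
      mult s * mult s' := by
    change ∑ᶠ s ∈ zs T, _ = _
    rw [finsum_mem_eq_finite_toFinset_sum _ (zs_fin T), zs_eq]
  rw [hz]
  push_cast
  refine Finset.sum_congr rfl fun s _ => ?_
  have hfin : {s' : ℂ | s' ∈ zeros T ∧
      |(s.im - s'.im) * Real.log T / (2 * Real.pi)| ≤ β ∧ (¬ Good s ∨ ¬ Good s')}.Finite :=
    (zs_fin T).subset fun _ h => h.1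
  rw [finsum_mem_eq_finite_toFinset_sum _ hfin]
  push_cast
  have e : ∀ s' : ℂ, (if (s.re = 1 / 2 ∧ mz s = 1) ∧ (s'.re = 1 / 2 ∧ mz s' = 1) then (0 : ℝ) else
      mz s * mz s' * (Set.Icc (-β) β).indicator (fun _ => (1 : ℝ)) (dd T s s')) =
      if |dd T s s'| ≤ β ∧ (¬ Good s ∨ ¬ Good s') then mz s * mz s' else 0 := by
    intro s'
    rw [good_iff, good_iff]
    by_cases h : (s.re = 1 / 2 ∧ mz s = 1) ∧ (s'.re = 1 / 2 ∧ mz s' = 1)
    · rw [if_pos h, if_neg]
      rintro ⟨-, h1 | h1⟩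
      · exact h1 h.1
      · exact h1 h.2
    · rw [if_neg h]
      by_cases hd : |dd T s s'| ≤ β
      · rw [if_pos ⟨hd, not_and_or.1 h⟩, Set.indicator_of_mem (Set.mem_Icc.2 (abs_le.1 hd)), mul_one]
      · rw [if_neg (fun h2 => hd h2.1), Set.indicator_of_notMem, mul_zero]
        exact fun h2 => hd (abs_le.2 (Set.mem_Icc.1 h2))
  simp_rw [e]
  rw [← Finset.sum_filter]
  refine Finset.sum_congr ?_ fun s' _ => rfl
  ext s'
  rw [Set.Finite.mem_toFinset, Finset.mem_filter, ← zs_eq, Set.Finite.mem_toFinset]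
  rfl

lemma X_eq (T : ℝ) : X T = Xf T := rfl

lemma P_eq (α β : ℝ) : P α β = gp β - gp α := P_gp α β

lemma P_zero (β : ℝ) : P 0 β = gp β := by rw [P_eq, gp_zero, sub_zero]

lemma bad_eq (T : ℝ) : (bad T : ℝ) = Nbad T := cnt_bad T

lemma mont_iff {F : Filter ℝ} (hF : F ≤ atTop) :
    Montgomery (fun s => (mult s : ℝ)) F ↔ ∀ x, Tendsto (fun T => Aa T x) F (𝓝 (AG x)) := by
  rw [← Mont_K hF]
  refine forall_congr' fun α => forall_congr' fun β => forall_congr' fun hα =>
    forall_congr' fun hαβ => ?_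
  have h := equiv_iff hF (f := fun T => PC T (Set.Icc α β)) (gp_lt hαβ)
  simp_rw [pairs_mult, P_eq, X_eq]
  exact h

lemma gd_eq {α : ℝ} (hα : 0 < α) :
    gd α = 1 - (Real.sin (Real.pi * α) / (Real.pi * α)) ^ 2 := by
  unfold gd
  have hpi := Real.pi_pos
  rw [Real.sinc_of_ne_zero (by positivity)]

lemma local_K {w : ℂ → ℝ} (hw : Wt w) {F : Filter ℝ} (hF : F ≤ atTop) (h : LocalLower w F) :
    ∀ x, Tendsto (fun T => Aa T x) F (𝓝 (AG x)) := by
  refine K_local hF fun α hα ε hε h₀ hh₀ => ?_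
  obtain ⟨k, hk0, hk1, hk2⟩ := h α hα ε hε h₀ hh₀
  refine ⟨k, hk0, hk1, ?_⟩
  filter_upwards [hk2, hF (eventually_gt_atTop (1 : ℝ))] with T h1 h2
  rw [pairs_eq, X_eq, ← gd_eq hα] at h1
  unfold Y744.Nr
  rw [le_div_iff₀ (Xf_pos h2)]
  exact h1.trans (PW_le hw T _)

lemma lower_K {w : ℂ → ℝ} (hw : Wt w) {F : Filter ℝ} (hF : F ≤ atTop) (h : Lower w F) :
    ∀ x, Tendsto (fun T => Aa T x) F (𝓝 (AG x)) := by
  refine K_lower hF fun α β hα hαβ ε hε => ?_
  filter_upwards [h α β hα hαβ ε hε, hF (eventually_gt_atTop (1 : ℝ))] with T h1 h2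
  rw [pairs_eq, X_eq, P_eq] at h1
  unfold Y744.Nr
  rw [le_div_iff₀ (Xf_pos h2)]
  exact h1.trans (PW_le hw T _)

lemma far_K {w : ℂ → ℝ} (hw : Wt w) {F : Filter ℝ} (hF : F ≤ atTop) (h : FarLower w F) :
    ∀ x, Tendsto (fun T => Aa T x) F (𝓝 (AG x)) := by
  obtain ⟨C, c, R, hc, h⟩ := h
  refine K_pos hF (C := max C 0) (c := c) (R := max R 1) (le_max_right _ _) hc
    (lt_of_lt_of_le one_pos (le_max_right _ _)) fun β hβ ε hε => ?_
  filter_upwards [h β ((le_max_left _ _).trans hβ) ε hε, hF (eventually_gt_atTop (1 : ℝ))]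
    with T h1 h2
  rw [pairs_eq, X_eq, P_zero] at h1
  have hX := Xf_pos h2
  unfold Np
  rw [le_div_iff₀ hX]
  refine le_trans (mul_le_mul_of_nonneg_right ?_ hX.le) (h1.trans (PW_le hw T _))
  have : C * Real.exp (-(c * β)) ≤ max C 0 * Real.exp (-(c * β)) :=
    mul_le_mul_of_nonneg_right (le_max_left _ _) (Real.exp_pos _).le
  linarith

/-- the weighted counts of a window under the conjecture -/
lemma K_win {w : ℂ → ℝ} (hw : Wt w) {F : Filter ℝ} (hF : F ≤ atTop)
    (hK : ∀ x, Tendsto (fun T => Aa T x) F (𝓝 (AG x))) {α β : ℝ} (hα : 0 < α) (hαβ : α < β)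
    {ε : ℝ} (hε : 0 < ε) : ∀ᶠ T in F,
      |pairs w T (Set.Icc α β) - P α β * X T| ≤ ε * X T := by
  have h1 := (Mont_K hF).2 hK α β hα hαβ
  have h2 := BP_small hF (fun ε hε => bad_of_K hF hK hε) (β := β) (by linarith)
    (show 0 < ε / 2 by positivity)
  filter_upwards [(Metric.tendsto_nhds.1 h1) (ε / 2) (by positivity), h2,
    hF (eventually_gt_atTop (1 : ℝ))] with T h2 h3 h4
  rw [pairs_eq, X_eq, P_eq]
  have hX := Xf_pos h4
  rw [Real.dist_eq] at h2
  have e : PC T (Set.Icc α β) - (gp β - gp α) * Xf T =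
      (Y744.Nr T α β - (gp β - gp α)) * Xf T := by
    unfold Y744.Nr
    field_simp
  have h5 : |PC T (Set.Icc α β) - (gp β - gp α) * Xf T| ≤ ε / 2 * Xf T := by
    rw [e, abs_mul, abs_of_pos hX]
    exact mul_le_mul_of_nonneg_right h2.le hX.le
  have h6 := PW_le hw T (Set.Icc α β)
  have h7 := PC_sub_PW hw T (S := Set.Icc α β) (β := β) (Set.Icc_subset_Icc_left (by linarith))
  obtain ⟨h8, h9⟩ := abs_le.1 h5
  rw [abs_le]
  constructor <;> linarith

/-- **The pair correlation conjecture for the simple critical zeros only.** -/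
theorem result :
    (∃ C : ℝ, 0 < C ∧ ∀ β : ℝ, 0 ≤ β → ∃ T₀ : ℝ, ∀ T : ℝ, T₀ ≤ T →
      (badPairs T β : ℝ) ≤ C * (1 + β) * (X T ^ (1 / 3 : ℝ) * ((bad T : ℝ) + 1) ^ (2 / 3 : ℝ))) ∧
    (∀ F : Filter ℝ, F ≤ atTop → ∀ w : ℂ → ℝ, Weight w →
      (Montgomery (fun s => (mult s : ℝ)) F ↔ Montgomery w F) ∧
      (Montgomery (fun s => (mult s : ℝ)) F ↔ Lower w F) ∧
      (Montgomery (fun s => (mult s : ℝ)) F ↔ LocalLower w F) ∧
      (Montgomery (fun s => (mult s : ℝ)) F ↔ FarLower w F)) ∧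
    Weight simpleCritical ∧ Weight critical ∧ Weight distinct := by
  refine ⟨?_, fun F hF w hw => ?_, fun s => ?_, fun s => ?_, fun s => ?_⟩
  · obtain ⟨C, hC, h⟩ := BP_rpow
    refine ⟨C, hC, fun β hβ => ?_⟩
    obtain ⟨T₀, hT₀⟩ := h β hβ
    refine ⟨T₀, fun T hT => ?_⟩
    rw [badPairs_eq, bad_eq, X_eq]
    exact hT₀ T hT
  · have hW := wt_of hw
    rw [mont_iff hF]
    have hlow : Montgomery w F → Lower w F := by
      intro h α β hα hαβ ε hε
      have h1 := (equiv_iff hF (f := fun T => pairs w T (Set.Icc α β)) (gp_lt hαβ)).1 (by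
        have := h α β hα hαβ
        simp_rw [P_eq, X_eq] at this
        exact this)
      filter_upwards [(tendsto_order.1 h1).1 (gp β - gp α - ε) (by linarith),
        hF (eventually_gt_atTop (1 : ℝ))] with T h2 h3
      rw [P_eq, X_eq]
      rw [lt_div_iff₀ (Xf_pos h3)] at h2
      exact h2.le
    have hmont : (∀ x, Tendsto (fun T => Aa T x) F (𝓝 (AG x))) → Montgomery w F := by
      intro hK α β hα hαβ
      have h1 := equiv_iff hF (f := fun T => pairs w T (Set.Icc α β)) (gp_lt hαβ)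
      simp_rw [P_eq, X_eq]
      rw [h1, Metric.tendsto_nhds]
      intro ε hε
      filter_upwards [K_win hW hF hK hα hαβ (show 0 < ε / 2 by positivity),
        hF (eventually_gt_atTop (1 : ℝ))] with T h2 h3
      have hX := Xf_pos h3
      rw [P_eq, X_eq] at h2
      have e : pairs w T (Set.Icc α β) / Xf T - (gp β - gp α) =
          (pairs w T (Set.Icc α β) - (gp β - gp α) * Xf T) / Xf T := by
        field_simp
      rw [Real.dist_eq, e, abs_div, abs_of_pos hX, div_lt_iff₀ hX]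
      nlinarith
    refine ⟨⟨hmont, fun h => lower_K hW hF (hlow h)⟩, ⟨fun h => hlow (hmont h), lower_K hW hF⟩,
      ⟨fun hK => ?_, local_K hW hF⟩, ⟨fun hK => ?_, far_K hW hF⟩⟩
    · -- local densities
      intro α hα ε hε h₀ hh₀
      have hd := (gp_deriv α).isLittleO
      have hd2 := hd.bound (show 0 < ε / 2 by positivity)
      obtain ⟨r, hr, hr2⟩ := Metric.eventually_nhds_iff.1 hd2
      obtain ⟨k, hk⟩ : ∃ k, k = min h₀ r / 2 := ⟨_, rfl⟩
      have hk0 : 0 < k := by rw [hk]; positivity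
      have hk1 : k < h₀ := by
        have := min_le_left h₀ r
        rw [hk]; linarith
      have hk2 : k < r := by
        have := min_le_right h₀ r
        rw [hk]; linarith
      refine ⟨k, hk0, hk1, ?_⟩
      have e2 := hr2 (show dist (α + k) α < r by
        rw [Real.dist_eq, add_sub_cancel_left, abs_of_pos hk0]
        exact hk2)
      rw [add_sub_cancel_left, smul_eq_mul, Real.norm_eq_abs, Real.norm_eq_abs,
        abs_of_pos hk0] at e2
      have e3 := (abs_le.1 e2).1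
      filter_upwards [K_win hW hF hK hα (show α < α + k by linarith)
        (show 0 < ε / 2 * k by positivity), hF (eventually_gt_atTop (1 : ℝ))] with T hT hT1
      have h1 := (abs_le.1 hT).1
      have hX := Xf_pos hT1
      rw [← gd_eq hα]
      rw [P_eq, X_eq] at h1
      rw [X_eq]
      have h2 : (gd α - ε) * k * Xf T ≤ (gp (α + k) - gp α - ε / 2 * k) * Xf T :=
        mul_le_mul_of_nonneg_right (by linarith) hX.le
      linarith
    · refine ⟨0, 1, 1, one_pos, fun β hβ ε hε => ?_⟩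
      have h1 := Np_K hK (show 0 ≤ β by linarith)
      filter_upwards [(tendsto_order.1 h1).1 (gp β - ε / 2) (by linarith),
        BP_small hF (fun ε hε => bad_of_K hF hK hε) (β := β) (by linarith)
          (show 0 < ε / 2 by positivity), hF (eventually_gt_atTop (1 : ℝ))] with T h2 h3 h4
      rw [pairs_eq, X_eq, P_zero, zero_mul, sub_zero]
      unfold Np at h2
      rw [lt_div_iff₀ (Xf_pos h4)] at h2
      have h5 := PC_sub_PW hW T (S := Set.Ioc 0 β) (β := β) (fun x hx => ⟨by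
        have := hx.1
        linarith, hx.2⟩)
      linarith
  · -- simple critical zeros
    unfold simpleCritical
    by_cases h : Good s
    · rw [Set.indicator_of_mem (by exact h : s ∈ {s : ℂ | Good s})]
      exact ⟨zero_le_one, by rw [h.2]; simp, fun _ => rfl⟩
    · rw [Set.indicator_of_notMem (by exact h : s ∉ {s : ℂ | Good s})]
      exact ⟨le_rfl, Nat.cast_nonneg _, fun h2 => absurd h2 h⟩
  · unfold critical
    by_cases h : s.re = 1 / 2
    · rw [Set.indicator_of_mem (by exact h : s ∈ {s : ℂ | s.re = 1 / 2})]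
      exact ⟨Nat.cast_nonneg _, le_rfl, fun h2 => by rw [h2.2]; simp⟩
    · rw [Set.indicator_of_notMem (by exact h : s ∉ {s : ℂ | s.re = 1 / 2})]
      exact ⟨le_rfl, Nat.cast_nonneg _, fun h2 => absurd h2.1 h⟩
  · unfold distinct
    refine ⟨le_min zero_le_one (Nat.cast_nonneg _), min_le_right _ _, fun h => ?_⟩
    rw [h.2]
    simp

end Pool.Agent.Results.MP_8958e8_nt.SimpleZerosOnly
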