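import Pool.Agent.Helper92.FM.Tu5
import Pool.Agent.Helper92.FM.Sm

/-!
# Pairs, triples, and tuples of every order of simple critical zeros at all distances

No hypothesis is assumed.

Montgomery's conjecture gives, for long intervals `[α, β]`, the number
`(1 + o(1)) (β - α) T log T / 2π` of pairs of zeros with normalised difference in `[α, β]`. Here it is
proved that for every interval of length at least `ℓ`, wherever it lies, and only with simple zeros on
the critical line, there are at least `0.43` times as many pairs. The same is proved for the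
correlations of every order `n + 1`, as long as there are at most 15 different intervals: let
`I₁, …, I_r`, `r ≤ 15`, be any intervals of length at least `ℓ`, and let `c : {1, …, n} → {1, …, r}`
take each value at most `m` times. Then the `(n + 1)`-tuples of different simple zeros `(s₀, …, sₙ)` on
the critical line such that the normalised difference of `s_i` and `s₀` is in `I_{c i}` for all `i`
are at least `C |I_{c 1}| ⋯ |I_{c n}| T log T / 2π` in number, where `C` is any constant below
`κ n r m > 0`. (With `r = n`, `m = 1` these are arbitrary boxes.)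

Idea: a law of large numbers, without RH, for the local pair correlation sums in the bandwidth `< 1/2`
(a fourth moment), a bound for their mean in the bandwidth `< 1`, and a local trace inequality for
the zeros on and off the line. They give, for a number of pairs `(a, η)`, that the number `v` of
simple critical zeros in a window of `l` mean spacings satisfies `E (a l - v)₊ ≤ (η + ε) l`.
-/

set_option autoImplicit false

namespace Pool.Agent.Results.MP_8958e8_nt.TuplesAllDistances

open Pool.Agent.Helper92.FM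

/-- the simple zeros of `ζ` on the critical line with ordinate in `(0, T]` -/
def zeros (T : ℝ) : Set ℂ :=
  {s : ℂ | riemannZeta s = 0 ∧ s.re = 1 / 2 ∧ analyticOrderNatAt riemannZeta s = 1 ∧
    0 < s.im ∧ s.im ≤ T}

/-- the number of the `(n + 1)`-tuples `(p 0, …, p n)` of different zeros of this kind such that
`(Im p (i + 1) - Im p 0) log T / 2π` is in `[α i, β i]` for all `i < n` -/
noncomputable def tuples (n : ℕ) (T : ℝ) (α β : Fin n → ℝ) : ℕ :=
  Set.ncard {p : Fin (n + 1) → ℂ | Function.Injective p ∧ (∀ i, p i ∈ zeros T) ∧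
    ∀ i : Fin n, ((p i.succ).im - (p 0).im) * Real.log T / (2 * Real.pi) ∈
      Set.Icc (α i) (β i)}

/-- the constants; the order of the tuples is `n + 1`, there are `r` different intervals, and each
of them is used at most `m` times -/
noncomputable def κ (n r m : ℕ) : ℝ :=
  max (0.8174 ^ (n + 1) * (max 0 (1 - ((r : ℝ) + 1) * 0.14543 / 0.8174)) ^ m)
    (0.1551 ^ (n + 1) * (max 0 (1 - ((r : ℝ) + 1) * 0.0096 / 0.1551)) ^ m)

lemma tuples_eq (n : ℕ) (T : ℝ) (α β : Fin n → ℝ) : (tuples n T α β : ℝ) = TD n T α β := by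
  unfold tuples TD
  congr 2
  ext p
  simp only [Set.mem_ofPred_eq, TC, Set.mem_Icc]
  exact ⟨fun h => ⟨h.2.1, h.1, h.2.2⟩, fun h => ⟨h.2.1, h.1, h.2.2⟩⟩

lemma κ_facts : (0.43 : ℝ) < κ 1 1 1 ∧ 0.254 < κ 2 2 1 ∧ 0.128 < κ 3 3 1 ∧ 0.04 < κ 4 4 1 ∧
    ∀ n r m : ℕ, r ≤ 15 → 0 < κ n r m := by
  refine ⟨?_, ?_, ?_, ?_, fun n r m hr => ?_⟩
  · apply lt_max_of_lt_left
    have h : (0.8174 : ℝ) ^ (1 + 1) * (1 - (((1 : ℕ) : ℝ) + 1) * 0.14543 / 0.8174) ^ 1 ≤
        0.8174 ^ (1 + 1) * (max 0 (1 - (((1 : ℕ) : ℝ) + 1) * 0.14543 / 0.8174)) ^ 1 := by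
      rw [pow_one, pow_one]
      exact mul_le_mul_of_nonneg_left (le_max_right _ _) (by positivity)
    exact lt_of_lt_of_le (by norm_num) h
  · apply lt_max_of_lt_left
    have h : (0.8174 : ℝ) ^ (2 + 1) * (1 - (((2 : ℕ) : ℝ) + 1) * 0.14543 / 0.8174) ^ 1 ≤
        0.8174 ^ (2 + 1) * (max 0 (1 - (((2 : ℕ) : ℝ) + 1) * 0.14543 / 0.8174)) ^ 1 := by
      rw [pow_one, pow_one]
      exact mul_le_mul_of_nonneg_left (le_max_right _ _) (by positivity)
    exact lt_of_lt_of_le (by norm_num) h
  · apply lt_max_of_lt_left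
    have h : (0.8174 : ℝ) ^ (3 + 1) * (1 - (((3 : ℕ) : ℝ) + 1) * 0.14543 / 0.8174) ^ 1 ≤
        0.8174 ^ (3 + 1) * (max 0 (1 - (((3 : ℕ) : ℝ) + 1) * 0.14543 / 0.8174)) ^ 1 := by
      rw [pow_one, pow_one]
      exact mul_le_mul_of_nonneg_left (le_max_right _ _) (by positivity)
    exact lt_of_lt_of_le (by norm_num) h
  · apply lt_max_of_lt_left
    have h : (0.8174 : ℝ) ^ (4 + 1) * (1 - (((4 : ℕ) : ℝ) + 1) * 0.14543 / 0.8174) ^ 1 ≤
        0.8174 ^ (4 + 1) * (max 0 (1 - (((4 : ℕ) : ℝ) + 1) * 0.14543 / 0.8174)) ^ 1 := by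
      rw [pow_one, pow_one]
      exact mul_le_mul_of_nonneg_left (le_max_right _ _) (by positivity)
    exact lt_of_lt_of_le (by norm_num) h
  · apply lt_max_of_lt_right
    apply mul_pos (by positivity)
    apply pow_pos
    apply lt_max_of_lt_right
    have h1 : (r : ℝ) ≤ 15 := by exact_mod_cast hr
    rw [sub_pos, div_lt_one (by norm_num)]
    linarith

/-- simple critical zeros at all distances: pairs, and tuples of every order -/
theorem result :
    (0.43 < κ 1 1 1 ∧ 0.254 < κ 2 2 1 ∧ 0.128 < κ 3 3 1 ∧ 0.04 < κ 4 4 1 ∧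
      ∀ n r m : ℕ, r ≤ 15 → 0 < κ n r m) ∧
    ∀ (n r m : ℕ) (c : Fin n → Fin r),
      1 ≤ m → (∀ j, (Finset.univ.filter (fun i => c i = j)).card ≤ m) →
      ∀ C : ℝ, 0 < C → C < κ n r m →
      ∃ l δ T₀ : ℝ, 0 < l ∧ 0 < δ ∧ ∀ T : ℝ, T₀ ≤ T → ∀ α β : Fin r → ℝ,
        (∀ j, -(δ * (T * Real.log T)) ≤ α j ∧ β j ≤ δ * (T * Real.log T) ∧ l ≤ β j - α j) →
        C * (∏ i, (β (c i) - α (c i))) * (T * Real.log T / (2 * Real.pi)) ≤
          tuples n T (fun i => α (c i)) (fun i => β (c i)) := by
  refine ⟨κ_facts, fun n r m c hm hc C hC hCκ => ?_⟩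
  have hmain : ∃ l1 δ T0 : ℝ, 0 < l1 ∧ 0 < δ ∧ ∀ T : ℝ, T0 ≤ T → ∀ α β : Fin r → ℝ,
      (∀ j, -(δ * (T * Real.log T)) ≤ α j) → (∀ j, β j ≤ δ * (T * Real.log T)) →
      (∀ j, l1 ≤ β j - α j) →
      C * (∏ i, (β (c i) - α (c i))) * (T * Real.log T / (2 * Real.pi)) ≤
        TD n T (fun i => α (c i)) (fun i => β (c i)) := by
    have hm0 : m ≠ 0 := by omega
    rcases lt_max_iff.1 hCκ with h | h
    · have e1 : (8174 / 10000 : ℝ) = 0.8174 := by norm_num
      have e2 : (14543 / 100000 : ℝ) = 0.14543 := by norm_num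
      rcases le_or_gt (1 - ((r : ℝ) + 1) * 0.14543 / 0.8174) 0 with h0 | h0
      · rw [max_eq_left h0, zero_pow hm0, mul_zero] at h
        linarith
      · rw [max_eq_right h0.le] at h
        refine tuples_multi c hc hm fullA (by norm_num) (by norm_num) ?_ hC ?_
        · rw [e1, e2]
          rw [sub_pos, div_lt_one (by norm_num)] at h0
          exact h0
        · rw [e1, e2]
          exact h
    · have e1 : (1551 / 10000 : ℝ) = 0.1551 := by norm_num
      have e2 : (96 / 10000 : ℝ) = 0.0096 := by norm_num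
      rcases le_or_gt (1 - ((r : ℝ) + 1) * 0.0096 / 0.1551) 0 with h0 | h0
      · rw [max_eq_left h0, zero_pow hm0, mul_zero] at h
        linarith
      · rw [max_eq_right h0.le] at h
        refine tuples_multi c hc hm fullB (by norm_num) (by norm_num) ?_ hC ?_
        · rw [e1, e2]
          rw [sub_pos, div_lt_one (by norm_num)] at h0
          exact h0
        · rw [e1, e2]
          exact h
  obtain ⟨l, δ, T0, h1, h2, h3⟩ := hmain
  refine ⟨l, δ, T0, h1, h2, fun T hT α β h => ?_⟩
  rw [tuples_eq]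
  exact h3 T hT α β (fun j => (h j).1) (fun j => (h j).2.1) (fun j => (h j).2.2)

end Pool.Agent.Results.MP_8958e8_nt.TuplesAllDistances
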